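import Pool.Agent.Y515.SY.RG3

/-!
# Regularization of a bounded closed form near the support of a function

`t_RG : S_RG`.
-/

set_option autoImplicit false

open Set Filter Topology MeasureTheory
open scoped Manifold ContDiff

noncomputable section

namespace Pool.Agent.Y515.SY

open Pool.Agent.Y501.SY

variable {d : ℕ}

theorem vol_zero {k : Set (E d)} (h : Cap k) : volume k = 0 := by
  by_contra hne
  have hpos : 0 < volume k := pos_iff_ne_zero.2 hne
  obtain ⟨q, hq0, hq⟩ : ∃ q : ℝ, 0 < q ∧ ENNReal.ofReal q ≤ volume k := by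
    by_cases ht : volume k = ⊤
    · exact ⟨1, one_pos, by rw [ht]; exact le_top⟩
    · refine ⟨(volume k).toReal, ENNReal.toReal_pos hne ht, ?_⟩
      rw [ENNReal.ofReal_toReal ht]
  obtain ⟨η, -, -, -, h1, -, -, h2, -⟩ := h univ isOpen_univ (subset_univ _) q hq0
  have h3 : k ⊆ Function.support η := by
    intro x hx
    have := h1.self_of_nhdsSet x hx
    rw [Function.mem_support, this]
    exact one_ne_zero
  exact absurd (h2.trans_le hq) (not_lt.2 (measure_mono h3))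

theorem moll_exists {ε : ℝ} (hε : 0 < ε) : ∃ ρ : E d → ℝ, Moll ε ρ := by
  let f : ContDiffBump (0 : E d) := ⟨ε / 2, ε, by linarith, by linarith⟩
  refine ⟨f.normed volume, ⟨f.contDiff_normed, fun y => f.nonneg_normed y, ?_,
    f.integral_normed⟩⟩
  intro y hy
  have hs := f.support_normed_eq (μ := (volume : Measure (E d)))
  by_contra hne
  have hmem : y ∈ Function.support (f.normed volume) := hne
  rw [hs, Metric.mem_ball, dist_zero_right] at hmem
  exact absurd hmem (not_lt.2 hy)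

theorem moll_int {ε : ℝ} {ρ : E d → ℝ} (hρ : Moll ε ρ) : Integrable ρ :=
  hρ.smooth.continuous.integrable_of_hasCompactSupport (moll_cs hρ)

theorem comp_id (η : Al d 2) (y : E d) : η.compContinuousLinearMap (LL 0 y) = η := by
  apply ContinuousAlternatingMap.ext
  intro v
  rw [pair_eta v, comp_pair, LL_apply, LL_apply]
  simp

/-- the average at a point at which `χ` vanishes -/
theorem JJ_eq {ρ χ : E d → ℝ} {ε : ℝ} (hρ : Moll ε ρ) (Φ : E d → Al d 2) {p : E d}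
    (hp : χ p = 0) (hp' : fderiv ℝ χ p = 0) : JJ ρ χ Φ p = Φ p := by
  unfold JJ
  have h1 : ∀ y : E d, ρ y • (Φ (p + χ p • y)).compContinuousLinearMap (LL (fderiv ℝ χ p) y) =
      ρ y • Φ p := by
    intro y
    rw [hp, hp', zero_smul, add_zero, comp_id]
  simp_rw [h1]
  rw [integral_smul_const, hρ.int, one_smul]

/-- the bound -/
theorem JJ_bd {ρ χ : E d → ℝ} {ε : ℝ} (hρ : Moll ε ρ) {Φ : E d → Al d 2} {b : ℝ}
    (hb : ∀ q, ‖Φ q‖ ≤ b) {p : E d} {D : ℝ} (hD : ‖fderiv ℝ χ p‖ ≤ D) :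
    ‖JJ ρ χ Φ p‖ ≤ b * (1 + D * ε) ^ 2 := by
  have hb0 : 0 ≤ b := (norm_nonneg _).trans (hb 0)
  have hD0 : 0 ≤ D := (norm_nonneg _).trans hD
  have h1 : ∫ y, ρ y * (b * (1 + D * ε) ^ 2) = b * (1 + D * ε) ^ 2 := by
    rw [integral_mul_const, hρ.int, one_mul]
  rw [← h1]
  unfold JJ
  refine norm_integral_le_of_norm_le ((moll_int hρ).mul_const _)
    (Eventually.of_forall fun y => ?_)
  rw [norm_smul, Real.norm_of_nonneg (hρ.nonneg y)]
  by_cases hy : ε ≤ ‖y‖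
  · rw [hρ.supp y hy, zero_mul, zero_mul]
  · rw [not_le] at hy
    refine mul_le_mul_of_nonneg_left ?_ (hρ.nonneg y)
    refine (comp_norm _ _).trans ?_
    have h2 : ‖LL (fderiv ℝ χ p) y‖ ≤ 1 + D * ε := by
      refine (LL_norm _ _).trans ?_
      have := mul_le_mul hD hy.le (norm_nonneg _) hD0
      linarith
    exact mul_le_mul (hb _) (pow_le_pow_left₀ (norm_nonneg _) h2 2) (by positivity) hb0

theorem JJ_apply_int {ρ χ : E d → ℝ} (hg : Continuous ρ) (hgc : HasCompactSupport ρ)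
    {Φ : E d → Al d 2} (hf : StronglyMeasurable Φ) {b : ℝ} (hb : ∀ q, ‖Φ q‖ ≤ b) (p v w : E d) :
    Integrable (fun y => ρ y *
      Φ (p + χ p • y) ![v + fderiv ℝ χ p v • y, w + fderiv ℝ χ p w • y]) := by
  let L : (Al d 2) →L[ℝ] ℝ := ContinuousAlternatingMap.apply ℝ (E d) ℝ ![v, w]
  have h1 := L.integrable_comp (JJ_int (χ := χ) hg hgc hf hb p)
  refine h1.congr (Eventually.of_forall fun y => ?_)
  change ρ y * ((Φ (p + χ p • y)).compContinuousLinearMap (LL (fderiv ℝ χ p) y)) ![v, w] = _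
  rw [comp_pair]
  rfl

theorem aff_null {A : Set (E d)} (hA : volume A = 0) (p : E d) {c : ℝ} (hc : c ≠ 0) :
    ∀ᵐ y : E d, p + c • y ∉ A := by
  have h1 : volume ((fun y : E d => p + c • y) ⁻¹' A) = 0 := by
    have h2 : (fun y : E d => p + c • y) ⁻¹' A =
        (fun y : E d => c • y) ⁻¹' ((fun y : E d => p + y) ⁻¹' A) := rfl
    rw [h2, Measure.addHaar_preimage_smul _ hc, measure_preimage_add, hA, mul_zero]
  exact measure_eq_zero_iff_ae_notMem.1 h1

/-- the lower bound -/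
theorem JJ_lb {ρ χ : E d → ℝ} {ε : ℝ} (hρ : Moll ε ρ) {V k Q : Set (E d)} {s : E d → Al d 2}
    {Js : E d → (E d →L[ℝ] E d)} (hVk : IsOpen (V \ k)) (hs : ContDiffOn ℝ ∞ s (V \ k))
    {b δ₀ δ₁ D S : ℝ} (hb0 : 0 ≤ b) (hδ₁ : 0 ≤ δ₁)
    (hsB : ∀ p ∈ V \ k, ‖s p‖ ≤ b) (hQV : Q ⊆ V) (hkQ : volume (k ∩ Q) = 0)
    (hpos : ∀ p ∈ V \ k, ∀ v : E d, - δ₀ * ‖v‖ ^ 2 ≤ s p ![v, Js p v]) {p : E d}
    (hp : χ p ≠ 0) (hball : ∀ y, ‖y‖ ≤ ε → p + χ p • y ∈ Q)
    (hJ : ∀ y, ‖y‖ ≤ ε → ‖Js p - Js (p + χ p • y)‖ ≤ δ₁) (hS : ‖Js p‖ ≤ S)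
    (hD : ‖fderiv ℝ χ p‖ ≤ D) (v : E d) :
    -((δ₀ + b * δ₁ + 2 * b * D * ε * S) * ‖v‖ ^ 2) ≤
      JJ ρ χ ((V \ k).indicator s) p ![v, Js p v] := by
  have hD0 : 0 ≤ D := (norm_nonneg _).trans hD
  have hS0 : 0 ≤ S := (norm_nonneg _).trans hS
  have hf := ind_sm hVk hs
  have hb := ind_bd hb0 hsB
  have hρc := moll_cs hρ
  rw [JJ_apply hρ.smooth.continuous hρc hf hb]
  have h1 : ∫ y, ρ y * -((δ₀ + b * δ₁ + 2 * b * D * ε * S) * ‖v‖ ^ 2) =
      -((δ₀ + b * δ₁ + 2 * b * D * ε * S) * ‖v‖ ^ 2) := by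
    rw [integral_mul_const, hρ.int, one_mul]
  rw [← h1]
  refine integral_mono_ae ((moll_int hρ).mul_const _)
    (JJ_apply_int hρ.smooth.continuous hρc hf hb p v (Js p v)) ?_
  filter_upwards [aff_null hkQ p hp] with y hy
  by_cases hyε : ε ≤ ‖y‖
  · rw [hρ.supp y hyε, zero_mul, zero_mul]
  rw [not_le] at hyε
  refine mul_le_mul_of_nonneg_left ?_ (hρ.nonneg y)
  set q : E d := p + χ p • y with hq
  have hqQ : q ∈ Q := hball y hyε.le
  have hqVk : q ∈ V \ k := ⟨hQV hqQ, fun h => hy ⟨h, hqQ⟩⟩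
  rw [indicator_of_mem hqVk, expand2]
  set w : E d := Js p v with hw
  have hwn : ‖w‖ ≤ S * ‖v‖ :=
    ((Js p).le_opNorm v).trans (mul_le_mul_of_nonneg_right hS (norm_nonneg _))
  have hsq : ‖s q‖ ≤ b := hsB q hqVk
  have hv0 : 0 ≤ ‖v‖ := norm_nonneg v
  -- the first term
  have t1 : s q ![v, w] = s q ![v, Js q v] + s q ![v, w - Js q v] := by
    rw [← lR_apply, ← lR_apply, ← lR_apply, ← map_add]
    congr 1
    abel
  have t2 := hpos q hqVk v
  have t3 : |s q ![v, w - Js q v]| ≤ b * δ₁ * ‖v‖ ^ 2 := by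
    have h2 : ‖w - Js q v‖ ≤ δ₁ * ‖v‖ := by
      have h3 := (Js p - Js q).le_opNorm v
      rw [_root_.sub_apply] at h3
      exact h3.trans (mul_le_mul_of_nonneg_right (hJ y hyε.le) hv0)
    refine (two_bound _ _ _).trans ?_
    calc ‖s q‖ * (‖v‖ * ‖w - Js q v‖) ≤ b * (‖v‖ * (δ₁ * ‖v‖)) :=
          mul_le_mul hsq (mul_le_mul_of_nonneg_left h2 hv0) (by positivity) hb0
      _ = _ := by ring
  -- the error terms
  have hdv : |fderiv ℝ χ p v| ≤ D * ‖v‖ := by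
    have h3 := (fderiv ℝ χ p).le_opNorm v
    rw [Real.norm_eq_abs] at h3
    exact h3.trans (mul_le_mul_of_nonneg_right hD hv0)
  have hdw : |fderiv ℝ χ p w| ≤ D * (S * ‖v‖) := by
    have h3 := (fderiv ℝ χ p).le_opNorm w
    rw [Real.norm_eq_abs] at h3
    exact h3.trans (mul_le_mul hD hwn (norm_nonneg _) hD0)
  have t4 : |fderiv ℝ χ p w * s q ![v, y]| ≤ b * D * ε * S * ‖v‖ ^ 2 := by
    rw [abs_mul]
    have h4 : |s q ![v, y]| ≤ b * (‖v‖ * ε) :=
      (two_bound _ _ _).trans (mul_le_mul hsq (mul_le_mul_of_nonneg_left hyε.le hv0)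
        (by positivity) hb0)
    calc _ ≤ D * (S * ‖v‖) * (b * (‖v‖ * ε)) :=
          mul_le_mul hdw h4 (abs_nonneg _) (by positivity)
      _ = _ := by ring
  have t5 : |fderiv ℝ χ p v * s q ![y, w]| ≤ b * D * ε * S * ‖v‖ ^ 2 := by
    rw [abs_mul]
    have hε0 : 0 ≤ ε := (norm_nonneg y).trans hyε.le
    have h4 : |s q ![y, w]| ≤ b * (ε * (S * ‖v‖)) :=
      (two_bound _ _ _).trans (mul_le_mul hsq (mul_le_mul hyε.le hwn (norm_nonneg _) hε0)
        (by positivity) hb0)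
    calc _ ≤ D * ‖v‖ * (b * (ε * (S * ‖v‖))) :=
          mul_le_mul hdv h4 (abs_nonneg _) (by positivity)
      _ = _ := by ring
  have a3 := (abs_le.1 t3).1
  have a4 := (abs_le.1 t4).1
  have a5 := (abs_le.1 t5).1
  rw [t1]
  nlinarith

theorem t_RG : S_RG := by
  intro hK hSM d V k χ s Js B δ₀ δ hV hkV hVk hcap hχ hχ0 hχc hχV hs hcl hsB hJ hδ₀ hδ hpos
  obtain ⟨r, hr, hrV⟩ := IsCompact.exists_cthickening_subset_open hχc hV hχV
  set Q : Set (E d) := Metric.cthickening r (tsupport χ) with hQdef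
  have hQ : IsCompact Q := IsCompact.cthickening hχc
  have hNQ : tsupport χ ⊆ Q := Metric.self_subset_cthickening _
  have hcapQ : Cap (k ∩ Q) := hcap Q hQ hrV
  have hkQ : volume (k ∩ Q) = 0 := vol_zero hcapQ
  set b : ℝ := max B 0 with hb
  have hb0 : 0 ≤ b := le_max_right _ _
  have hsb : ∀ p ∈ V \ k, ‖s p‖ ≤ b := fun p hp => (hsB p hp).trans (le_max_left _ _)
  obtain ⟨S₀, hS₀⟩ := hQ.exists_bound_of_continuousOn (hJ.mono hrV)
  set S : ℝ := max S₀ 0 with hSdef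
  have hS0 : 0 ≤ S := le_max_right _ _
  have hS : ∀ p ∈ Q, ‖Js p‖ ≤ S := fun p hp => (hS₀ p hp).trans (le_max_left _ _)
  obtain ⟨D, hD⟩ := (hχ.continuous_fderiv (by simp)).bounded_above_of_compact_support
    (hχc.fderiv ℝ)
  have hD0 : 0 ≤ D := (norm_nonneg _).trans (hD 0)
  obtain ⟨X, hX⟩ := hχ.continuous.bounded_above_of_compact_support hχc
  have hX0 : 0 ≤ X := (norm_nonneg _).trans (hX 0)
  have hgap : 0 < δ - δ₀ := sub_pos.2 hδ
  set δ₁ : ℝ := (δ - δ₀) / (2 * (b + 1)) with hδ₁def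
  have hδ₁ : 0 < δ₁ := by positivity
  obtain ⟨r₃, hr₃, hr₃'⟩ := Metric.uniformContinuousOn_iff.1
    (hQ.uniformContinuousOn_of_continuous (hJ.mono hrV)) δ₁ hδ₁
  obtain ⟨ε, hεdef⟩ : ∃ ε : ℝ, ε = min (min (r / (X + 1)) (r₃ / (2 * (X + 1))))
    ((δ - δ₀) / (4 * ((b + 1) * (D + 1) * (S + 1)))) := ⟨_, rfl⟩
  have hε : 0 < ε := by
    rw [hεdef]
    refine lt_min (lt_min (by positivity) (by positivity)) (by positivity)
  have hε₁ : ε ≤ r / (X + 1) := by rw [hεdef]; exact (min_le_left _ _).trans (min_le_left _ _)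
  have hε₂ : ε ≤ r₃ / (2 * (X + 1)) := by
    rw [hεdef]; exact (min_le_left _ _).trans (min_le_right _ _)
  have hε₃ : ε ≤ (δ - δ₀) / (4 * ((b + 1) * (D + 1) * (S + 1))) := by
    rw [hεdef]; exact min_le_right _ _
  rw [le_div_iff₀ (by positivity)] at hε₁ hε₂ hε₃
  obtain ⟨ρ, hρ⟩ := moll_exists (d := d) hε
  have hmove : ∀ p y : E d, ‖y‖ ≤ ε → ‖χ p • y‖ ≤ X * ε := by
    intro p y hy
    rw [norm_smul]
    exact mul_le_mul (hX p) hy (norm_nonneg _) hX0
  have hball : ∀ p ∈ tsupport χ, ∀ y, ‖y‖ ≤ ε → p + χ p • y ∈ Q := by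
    intro p hp y hy
    refine Metric.mem_cthickening_of_dist_le _ p _ _ hp ?_
    rw [dist_eq_norm, add_sub_cancel_left]
    refine (hmove p y hy).trans ?_
    nlinarith
  have hin : ∀ p, χ p ≠ 0 → p ∈ tsupport χ := fun p hp => subset_tsupport χ hp
  have hfd : ∀ p, χ p = 0 → fderiv ℝ χ p = 0 := by
    intro p hp
    apply IsLocalMin.fderiv_eq_zero
    refine Eventually.of_forall fun x => ?_
    rw [hp]
    exact hχ0 x
  classical
  set J : E d → Al d 2 := JJ ρ χ ((V \ k).indicator s) with hJdef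
  set Ω : Set (E d) := V \ (k ∩ {p | χ p = 0}) with hΩ
  have hsplit : ∀ p ∈ Ω, (χ p = 0 ∧ p ∈ V \ k) ∨ (0 < χ p ∧ p ∈ V) := by
    intro p hp
    by_cases h : χ p = 0
    · exact Or.inl ⟨h, hp.1, fun hk => hp.2 ⟨hk, h⟩⟩
    · exact Or.inr ⟨lt_of_le_of_ne (hχ0 p) (Ne.symm h), hp.1⟩
  have hΩo : IsOpen Ω := by
    have h1 : Ω = (V \ k) ∪ (V ∩ {p | χ p ≠ 0}) := by
      ext p
      constructor
      · intro hp
        rcases hsplit p hp with h | h
        · exact Or.inl h.2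
        · exact Or.inr ⟨h.2, h.1.ne'⟩
      · rintro (h | h)
        · exact ⟨h.1, fun h' => h.2 h'.1⟩
        · exact ⟨h.1, fun h' => h.2 h'.2⟩
    rw [h1]
    exact hVk.union (hV.inter (isOpen_ne_fun hχ.continuous continuous_const))
  have hJs : ∀ p ∈ V \ k, χ p = 0 → J p = s p := by
    intro p hp h0
    rw [hJdef, JJ_eq hρ _ h0 (hfd p h0), indicator_of_mem hp]
  obtain ⟨s', hs'⟩ : ∃ s' : E d → Al d 2, ∀ p, s' p = if χ p = 0 then s p else J p :=
    ⟨_, fun _ => rfl⟩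
  have hs'J : ∀ p ∈ Ω, s' p = J p := by
    intro p hp
    rw [hs' p]
    split_ifs with h
    · rcases hsplit p hp with h' | h'
      · exact (hJs p h'.2 h).symm
      · exact absurd h h'.1.ne'
    · rfl
  have hev : ∀ p ∈ Ω, s' =ᶠ[𝓝 p] J := by
    intro p hp
    filter_upwards [hΩo.mem_nhds hp] with q hq using hs'J q hq
  have hJsm : ∀ p ∈ Ω, ContDiffAt ℝ ∞ J p ∧ extDeriv J p = 0 := by
    intro p hp
    rcases hsplit p hp with h | h
    · exact JJ_off hSM hρ hχ hVk hs hcl h.2 h.1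
    · refine ⟨JJ_smooth hK hχ h.1 hρ.smooth (moll_cs hρ) (ind_sm hVk hs) (ind_bd hb0 hsb), ?_⟩
      exact JJ_closed hK hSM hε.le hρ hχ hVk hs hcl hb0 hsb hrV hcapQ h.1
        (hball p (hin p h.1.ne'))
  refine ⟨s', b * (1 + D * ε) ^ 2, ?_, ?_, ?_, ?_, ?_⟩
  · intro p hp
    exact ((hJsm p hp).1.congr_of_eventuallyEq (hev p hp)).contDiffWithinAt
  · intro p hp
    rw [(hev p hp).extDeriv_eq]
    exact (hJsm p hp).2
  · intro p hp
    rw [hs'J p hp]
    exact JJ_bd hρ (ind_bd hb0 hsb) (hD p)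
  · intro p hp
    rw [hs' p, if_pos hp]
  · intro p hp v
    have hv2 : 0 ≤ ‖v‖ ^ 2 := sq_nonneg _
    rcases hsplit p hp with h | h
    · rw [hs' p, if_pos h.1]
      have h1 := hpos p h.2 v
      nlinarith
    · rw [hs'J p hp]
      have hpN : p ∈ tsupport χ := hin p h.1.ne'
      have h1 := JJ_lb hρ hVk hs hb0 hδ₁.le hsb hrV hkQ hpos h.1.ne' (hball p hpN) (fun y hy => by
        have h2 : dist p (p + χ p • y) < r₃ := by
          rw [dist_eq_norm, sub_add_cancel_left, norm_neg]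
          refine lt_of_le_of_lt (hmove p y hy) ?_
          nlinarith
        have h3 := hr₃' p (hNQ hpN) _ (hball p hpN y hy) h2
        rw [dist_eq_norm] at h3
        exact h3.le) (hS p (hNQ hpN)) (hD p) v
      refine le_trans ?_ h1
      have h4 : b * δ₁ ≤ (δ - δ₀) / 2 := by
        rw [hδ₁def, mul_div_assoc', div_le_div_iff₀ (by positivity) two_pos]
        nlinarith
      have h5 : 2 * b * D * ε * S ≤ (δ - δ₀) / 2 := by
        have h6 : b * D * S ≤ (b + 1) * (D + 1) * (S + 1) := by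
          apply mul_le_mul (mul_le_mul _ _ hD0 _) _ hS0 _
          all_goals first | linarith | positivity
        have h7 : ε * (b * D * S) ≤ ε * ((b + 1) * (D + 1) * (S + 1)) :=
          mul_le_mul_of_nonneg_left h6 hε.le
        nlinarith
      nlinarith

end Pool.Agent.Y515.SY
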