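import Pool.Agent.Y501.SY.StmS

/-!
# Regularization of a bounded closed form: algebra of two-forms
-/

set_option autoImplicit false

open Set Filter Topology MeasureTheory
open scoped Manifold ContDiff

noncomputable section

namespace Pool.Agent.Y515.SY

open Pool.Agent.Y501.SY

/-- alternating forms -/
abbrev Al (d n : ℕ) := (E d) [⋀^Fin n]→L[ℝ] ℝ

variable {d : ℕ}

/-- the standard basis -/
def bs (i : Fin d) : E d := EuclideanSpace.single i 1

theorem sum_bs (v : E d) : ∑ i, v i • bs i = v := by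
  have := (EuclideanSpace.basisFun (Fin d) ℝ).sum_repr v
  simpa [bs] using this

/-- linear in the first variable -/
def lL (η : Al d 2) (w : E d) : E d →ₗ[ℝ] ℝ :=
  η.toAlternatingMap.toMultilinearMap.toLinearMap ![0, w] 0

/-- linear in the second variable -/
def lR (η : Al d 2) (v : E d) : E d →ₗ[ℝ] ℝ :=
  η.toAlternatingMap.toMultilinearMap.toLinearMap ![v, 0] 1

theorem lL_apply (η : Al d 2) (v w : E d) : lL η w v = η ![v, w] := by
  have e : Function.update (![0, w] : Fin 2 → E d) 0 v = ![v, w] := by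
    ext i
    fin_cases i <;> simp
  change η (Function.update ![0, w] 0 v) = _
  rw [e]

theorem lR_apply (η : Al d 2) (v w : E d) : lR η v w = η ![v, w] := by
  have e : Function.update (![v, 0] : Fin 2 → E d) 1 w = ![v, w] := by
    ext i
    fin_cases i <;> simp
  change η (Function.update ![v, 0] 1 w) = _
  rw [e]

theorem self_zero (η : Al d 2) (v : E d) : η ![v, v] = 0 :=
  η.map_eq_zero_of_eq ![v, v] (i := 0) (j := 1) (by simp) (by decide)

/-- expansion of a perturbed value -/
theorem expand2 (η : Al d 2) (v w y : E d) (a b : ℝ) :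
    η ![v + a • y, w + b • y] = η ![v, w] + b * η ![v, y] + a * η ![y, w] := by
  have h1 : η ![v + a • y, w + b • y] = η ![v, w + b • y] + a * η ![y, w + b • y] := by
    rw [← lL_apply, map_add, map_smul, lL_apply, lL_apply, smul_eq_mul]
  have h2 : ∀ z : E d, η ![z, w + b • y] = η ![z, w] + b * η ![z, y] := by
    intro z
    rw [← lR_apply, map_add, map_smul, lR_apply, lR_apply, smul_eq_mul]
  rw [h1, h2, h2, self_zero]
  ring

theorem right_sum (η : Al d 2) (v y : E d) : η ![v, y] = ∑ i, y i * η ![v, bs i] := by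
  conv_lhs => rw [← lR_apply, ← sum_bs y, map_sum]
  refine Finset.sum_congr rfl fun i _ => ?_
  rw [map_smul, lR_apply, smul_eq_mul]

theorem left_sum (η : Al d 2) (y w : E d) : η ![y, w] = ∑ i, y i * η ![bs i, w] := by
  conv_lhs => rw [← lL_apply, ← sum_bs y, map_sum]
  refine Finset.sum_congr rfl fun i _ => ?_
  rw [map_smul, lL_apply, smul_eq_mul]

theorem both_sum (η : Al d 2) (v w : E d) :
    η ![v, w] = ∑ i, ∑ j, v i * w j * η ![bs i, bs j] := by
  rw [left_sum]
  refine Finset.sum_congr rfl fun i _ => ?_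
  rw [right_sum, Finset.mul_sum]
  refine Finset.sum_congr rfl fun j _ => ?_
  ring

theorem two_bound (η : Al d 2) (v w : E d) : |η ![v, w]| ≤ ‖η‖ * (‖v‖ * ‖w‖) := by
  have := η.le_opNorm ![v, w]
  simpa [Fin.prod_univ_two, Real.norm_eq_abs] using this

theorem pair_eta (v : Fin 2 → E d) : v = ![v 0, v 1] := by
  ext i
  fin_cases i <;> rfl

/-- the values on pairs of basis vectors -/
def evL : Al d 2 →ₗ[ℝ] (Fin d × Fin d → ℝ) where
  toFun η := fun i => η ![bs i.1, bs i.2]
  map_add' η η' := by ext i; rfl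
  map_smul' c η := by ext i; rfl

theorem evL_inj : Function.Injective (evL (d := d)) := by
  intro η η' h
  apply ContinuousAlternatingMap.ext
  intro v
  rw [pair_eta v, both_sum, both_sum η']
  refine Finset.sum_congr rfl fun i _ => Finset.sum_congr rfl fun j _ => ?_
  have := congrFun h (i, j)
  change η ![bs i, bs j] = η' ![bs i, bs j] at this
  rw [this]

instance finAl : FiniteDimensional ℝ (Al d 2) := FiniteDimensional.of_injective evL evL_inj

theorem contDiffAt_of_eval {F : Type*} [NormedAddCommGroup F] [NormedSpace ℝ F]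
    {f : F → Al d 2} {x : F} {n : WithTop ℕ∞}
    (h : ∀ v w : E d, ContDiffAt ℝ n (fun p => f p ![v, w]) x) : ContDiffAt ℝ n f x := by
  obtain ⟨g, hg⟩ := LinearMap.exists_leftInverse_of_injective (evL (d := d))
    (LinearMap.ker_eq_bot.2 evL_inj)
  have e1 : f = fun p => (LinearMap.toContinuousLinearMap g) (evL (f p)) := by
    funext p
    have := congrArg (fun T : Al d 2 →ₗ[ℝ] Al d 2 => T (f p)) hg
    exact this.symm
  rw [e1]
  refine (LinearMap.toContinuousLinearMap g).contDiff.contDiffAt.comp x ?_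
  rw [contDiffAt_pi]
  intro i
  exact h _ _

/-- the linear map `v ↦ v + a(v) y` -/
def LL (a : E d →L[ℝ] ℝ) (y : E d) : E d →L[ℝ] E d :=
  ContinuousLinearMap.id ℝ (E d) + a.smulRight y

theorem LL_apply (a : E d →L[ℝ] ℝ) (y v : E d) : LL a y v = v + a v • y := rfl

theorem LL_norm (a : E d →L[ℝ] ℝ) (y : E d) : ‖LL a y‖ ≤ 1 + ‖a‖ * ‖y‖ := by
  refine (norm_add_le _ _).trans ?_
  rw [ContinuousLinearMap.norm_smulRight_apply]
  have := ContinuousLinearMap.norm_id_le (𝕜 := ℝ) (E := E d)
  linarith

theorem comp_pair (η : Al d 2) (T : E d →L[ℝ] E d) (v w : E d) :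
    (η.compContinuousLinearMap T) ![v, w] = η ![T v, T w] := by
  change η (T ∘ ![v, w]) = _
  congr 1
  ext i
  fin_cases i <;> rfl

theorem comp_contDiffAt {F : Type*} [NormedAddCommGroup F] [NormedSpace ℝ F]
    {f : F → Al d 2} {T : F → (E d →L[ℝ] E d)} {x : F} {n : WithTop ℕ∞}
    (hf : ContDiffAt ℝ n f x) (hT : ContDiffAt ℝ n T x) :
    ContDiffAt ℝ n (fun p => (f p).compContinuousLinearMap (T p)) x := by
  apply contDiffAt_of_eval
  intro v w
  have e1 : (fun p => ((f p).compContinuousLinearMap (T p)) ![v, w]) =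
      fun p => ∑ i, ∑ j, (T p v) i * (T p w) j * f p ![bs i, bs j] := by
    funext p
    rw [comp_pair, both_sum]
  rw [e1]
  have hc : ∀ (u : E d) (i : Fin d), ContDiffAt ℝ n (fun p => (T p u) i) x := by
    intro u i
    have h1 : ContDiffAt ℝ n (fun p => T p u) x := hT.clm_apply contDiffAt_const
    exact (EuclideanSpace.proj (𝕜 := ℝ) i).contDiff.contDiffAt.comp x h1
  have hev : ∀ i j : Fin d, ContDiffAt ℝ n (fun p => f p ![bs i, bs j]) x := by
    intro i j
    exact (ContinuousAlternatingMap.apply ℝ (E d) ℝ ![bs i, bs j]).contDiff.contDiffAt.comp x hf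
  refine ContDiffAt.sum fun i _ => ContDiffAt.sum fun j _ => ?_
  exact ((hc v i).mul (hc w j)).mul (hev i j)

end Pool.Agent.Y515.SY
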