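import Pool.Agent.Y515.SY.RG2

/-!
# Regularization of a bounded closed form: the averages are closed
-/

set_option autoImplicit false

open Set Filter Topology MeasureTheory
open scoped Manifold ContDiff

noncomputable section

namespace Pool.Agent.Y515.SY

open Pool.Agent.Y501.SY

variable {d : ℕ}

theorem smooth2 : minSmoothness ℝ 2 ≤ (∞ : WithTop ℕ∞) := by
  rw [minSmoothness_of_isRCLikeNormedField]
  exact WithTop.coe_le_coe.2 (le_top : (2 : ℕ∞) ≤ ⊤)

theorem T_fderiv {χ : E d → ℝ} (hχ : ContDiff ℝ ∞ χ) (y p : E d) :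
    fderiv ℝ (fun q => q + χ q • y) p = LL (fderiv ℝ χ p) y := by
  have h1 : HasFDerivAt χ (fderiv ℝ χ p) p :=
    ((hχ.differentiable (by simp)) p).hasFDerivAt
  have h2 : HasFDerivAt (fun q : E d => q + χ q • y)
      (ContinuousLinearMap.id ℝ (E d) + (fderiv ℝ χ p).smulRight y) p :=
    (hasFDerivAt_id p).add (h1.smul_const y)
  exact h2.fderiv

theorem comp3_norm (η : Al d 3) (T : E d →L[ℝ] E d) :
    ‖η.compContinuousLinearMap T‖ ≤ ‖η‖ * ‖T‖ ^ 3 := by
  have := ContinuousAlternatingMap.norm_compContinuousLinearMap_le η T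
  simpa using this

/-- a bound for the image of an integral -/
theorem int_bd {F H : Type*} [NormedAddCommGroup F] [NormedSpace ℝ F] [CompleteSpace F]
    [NormedAddCommGroup H] [NormedSpace ℝ H] [CompleteSpace H] (T : (E d →L[ℝ] F) →L[ℝ] H)
    (D : E d → (E d →L[ℝ] F)) {g : E d → ℝ} (hg : Integrable g) (hg0 : ∀ y, 0 ≤ g y)
    (h : ∀ y, ‖T (D y)‖ ≤ g y) : ‖T (∫ y, D y)‖ ≤ ∫ y, g y := by
  by_cases hi : Integrable D
  · rw [← T.integral_comp_comm hi]
    exact norm_integral_le_of_norm_le hg (Eventually.of_forall h)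
  · rw [integral_undef hi, map_zero, norm_zero]
    exact integral_nonneg hg0

theorem JJ_sm (hSM : S_SM) {ρ χ : E d → ℝ} {ε : ℝ} (hρ : Moll ε ρ) (hχ : ContDiff ℝ ∞ χ)
    {Φ : E d → Al d 2} {O : Set (E d)} (hO : IsOpen O) (hΦ : ContDiffOn ℝ ∞ Φ O) {p₀ : E d}
    (hp : ∀ y, ‖y‖ ≤ ε → p₀ + χ p₀ • y ∈ O) :
    ContDiffAt ℝ ∞ (JJ ρ χ Φ) p₀ ∧ ∀ g : E d → ℝ, Integrable g → (∀ y, 0 ≤ g y) →
      (∀ y, ‖y‖ ≤ ε → ρ y * ‖(extDeriv Φ (p₀ + χ p₀ • y)).compContinuousLinearMap
        (LL (fderiv ℝ χ p₀) y)‖ ≤ g y) → ‖extDeriv (JJ ρ χ Φ) p₀‖ ≤ ∫ y, g y := by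
  set F : E d × E d → Al d 2 := fun q =>
    (Φ (q.2 + χ q.2 • q.1)).compContinuousLinearMap (LL (fderiv ℝ χ q.2) q.1) with hF
  set Ω : Set (E d × E d) := {q | q.2 + χ q.2 • q.1 ∈ O} with hΩ
  have hT : ContDiff ℝ ∞ (fun q : E d × E d => q.2 + χ q.2 • q.1) :=
    contDiff_snd.add ((hχ.comp contDiff_snd).smul contDiff_fst)
  have hΩo : IsOpen Ω := hO.preimage hT.continuous
  have hdχ : ContDiff ℝ ∞ (fderiv ℝ χ) := hχ.fderiv_right (by simp)
  have hL : ContDiff ℝ ∞ (fun q : E d × E d => LL (fderiv ℝ χ q.2) q.1) := by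
    unfold LL
    exact contDiff_const.add ((hdχ.comp contDiff_snd).smulRight contDiff_fst)
  have hFΩ : ContDiffOn ℝ ∞ F Ω := by
    intro q hq
    refine ContDiffAt.contDiffWithinAt ?_
    refine comp_contDiffAt ?_ hL.contDiffAt
    exact (hΦ.contDiffAt (hO.mem_nhds hq)).comp q hT.contDiffAt
  obtain ⟨h1, h2⟩ := hSM d (Al d 2) ρ F p₀ ε Ω hρ.smooth.continuous hρ.supp hΩo hFΩ
    (fun y hy => hp y hy)
  refine ⟨h1, ?_⟩
  intro g hg hg0 hgb
  set A := ContinuousAlternatingMap.alternatizeUncurryFinCLM ℝ (E d) ℝ (n := 2) with hA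
  have h3 : extDeriv (JJ ρ χ Φ) p₀ = A (∫ y, ρ y • fderiv ℝ (fun p => F (y, p)) p₀) := by
    rw [← h2.fderiv]
    rfl
  rw [h3]
  refine int_bd A (fun y => ρ y • fderiv ℝ (fun p => F (y, p)) p₀) hg hg0 fun y => ?_
  have e0 : A (ρ y • fderiv ℝ (fun p => F (y, p)) p₀) =
      ρ y • A (fderiv ℝ (fun p => F (y, p)) p₀) := map_smul _ _ _
  rw [e0, norm_smul, Real.norm_of_nonneg (hρ.nonneg y)]
  by_cases hy : ‖y‖ ≤ ε
  · refine (le_of_eq ?_).trans (hgb y hy)
    congr 2
    have e1 : (fun p => F (y, p)) = fun p => (Φ ((fun q => q + χ q • y) p)).compContinuousLinearMap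
        (fderiv ℝ (fun q => q + χ q • y) p) := by
      funext p
      rw [T_fderiv hχ]
    have e2 : A (fderiv ℝ (fun p => F (y, p)) p₀) = extDeriv (fun p => F (y, p)) p₀ := rfl
    have hTd : ContDiffAt ℝ ∞ (fun q => q + χ q • y) p₀ :=
      (contDiff_id.add (hχ.smul contDiff_const)).contDiffAt
    have hΦd : DifferentiableAt ℝ Φ ((fun q => q + χ q • y) p₀) :=
      (hΦ.contDiffAt (hO.mem_nhds (hp y hy))).differentiableAt (by simp)
    have e3 := extDeriv_pullback (f := fun q => q + χ q • y) (r := ∞) hΦd hTd smooth2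
    rw [e2, e1, e3, T_fderiv hχ]
  · rw [not_le] at hy
    rw [hρ.supp y hy.le, zero_mul]
    exact hg0 y

/-- the exterior derivative of a product -/
theorem ext_smul {χ : E d → ℝ} {om : E d → Al d 2} {p : E d}
    (hχ : DifferentiableAt ℝ χ p) (hom : DifferentiableAt ℝ om p) :
    extDeriv (fun q => χ q • om q) p = χ p • extDeriv om p +
      ContinuousAlternatingMap.alternatizeUncurryFin ((fderiv ℝ χ p).smulRight (om p)) := by
  unfold extDeriv
  rw [fderiv_fun_smul hχ hom, ContinuousAlternatingMap.alternatizeUncurryFin_add,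
    ContinuousAlternatingMap.alternatizeUncurryFin_smul]

theorem ext_zero {om : E d → Al d 2} {p : E d} (h : om =ᶠ[𝓝 p] fun _ => 0) :
    extDeriv om p = 0 := by
  rw [h.extDeriv_eq]
  unfold extDeriv
  rw [fderiv_fun_const]
  exact map_zero (ContinuousAlternatingMap.alternatizeUncurryFinCLM ℝ (E d) ℝ)

theorem wedge3_norm (a : E d →L[ℝ] ℝ) (s : Al d 2) :
    ‖ContinuousAlternatingMap.alternatizeUncurryFin (a.smulRight s)‖ ≤ 3 * (‖a‖ * ‖s‖) := by
  refine (ContinuousAlternatingMap.norm_alternatizeUncurryFin_le _).trans ?_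
  rw [ContinuousLinearMap.norm_smulRight_apply]
  norm_num

section ind

variable {V k : Set (E d)} {s : E d → Al d 2}

theorem ind_sm (hVk : IsOpen (V \ k)) (hs : ContDiffOn ℝ ∞ s (V \ k)) :
    StronglyMeasurable ((V \ k).indicator s) := by
  refine stronglyMeasurable_of_restrict_of_restrict_compl hVk.measurableSet ?_ ?_
  · have h1 : (V \ k).domRestrict ((V \ k).indicator s) = (V \ k).domRestrict s := by
      funext x
      exact indicator_of_mem x.2 s
    rw [h1]
    exact (continuousOn_iff_continuous_domRestrict.1 hs.continuousOn).stronglyMeasurable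
  · have h1 : ((V \ k)ᶜ).domRestrict ((V \ k).indicator s) = fun _ => 0 := by
      funext x
      exact indicator_of_notMem x.2 s
    rw [h1]
    exact stronglyMeasurable_const

theorem ind_bd {b : ℝ} (hb0 : 0 ≤ b) (hsB : ∀ p ∈ V \ k, ‖s p‖ ≤ b) (q : E d) :
    ‖(V \ k).indicator s q‖ ≤ b := by
  by_cases hq : q ∈ V \ k
  · rw [indicator_of_mem hq]
    exact hsB q hq
  · rw [indicator_of_notMem hq, norm_zero]
    exact hb0

theorem ind_ev (hVk : IsOpen (V \ k)) {q : E d} (hq : q ∈ V \ k) :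
    (V \ k).indicator s =ᶠ[𝓝 q] s := by
  filter_upwards [hVk.mem_nhds hq] with x hx
  exact indicator_of_mem hx s

theorem ind_smooth (hVk : IsOpen (V \ k)) (hs : ContDiffOn ℝ ∞ s (V \ k)) :
    ContDiffOn ℝ ∞ ((V \ k).indicator s) (V \ k) := by
  intro q hq
  exact ((hs.contDiffAt (hVk.mem_nhds hq)).congr_of_eventuallyEq
    (ind_ev hVk hq)).contDiffWithinAt

/-- the averages are smooth and closed at points off the singular set at which `χ` vanishes -/
theorem JJ_off (hSM : S_SM) {ρ χ : E d → ℝ} {ε : ℝ} (hρ : Moll ε ρ) (hχ : ContDiff ℝ ∞ χ)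
    (hVk : IsOpen (V \ k)) (hs : ContDiffOn ℝ ∞ s (V \ k))
    (hcl : ∀ p ∈ V \ k, extDeriv s p = 0) {p₀ : E d} (hp : p₀ ∈ V \ k) (hp0 : χ p₀ = 0) :
    ContDiffAt ℝ ∞ (JJ ρ χ ((V \ k).indicator s)) p₀ ∧
      extDeriv (JJ ρ χ ((V \ k).indicator s)) p₀ = 0 := by
  obtain ⟨h1, h2⟩ := JJ_sm hSM hρ hχ hVk (ind_smooth hVk hs) (p₀ := p₀) (fun y _ => by
    rw [hp0, zero_smul, add_zero]
    exact hp)
  refine ⟨h1, ?_⟩
  have h3 := h2 (fun _ => 0) (integrable_zero _ _ _) (fun _ => le_rfl) (fun y _ => by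
    rw [hp0, zero_smul, add_zero, (ind_ev hVk hp).extDeriv_eq, hcl p₀ hp]
    have : (0 : Al d 3).compContinuousLinearMap (LL (fderiv ℝ χ p₀) y) = 0 := by
      apply ContinuousAlternatingMap.ext
      intro v
      rfl
    rw [this, norm_zero, mul_zero])
  rw [integral_zero] at h3
  exact norm_le_zero_iff.1 h3

/-- the averages are closed at points at which `χ` is positive -/
theorem JJ_closed (hK : S_KER) (hSM : S_SM) {ρ χ : E d → ℝ} {ε : ℝ} (hε : 0 ≤ ε)
    (hρ : Moll ε ρ) (hχ : ContDiff ℝ ∞ χ)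
    (hVk : IsOpen (V \ k)) (hs : ContDiffOn ℝ ∞ s (V \ k))
    (hcl : ∀ p ∈ V \ k, extDeriv s p = 0) {b : ℝ} (hb0 : 0 ≤ b)
    (hsB : ∀ p ∈ V \ k, ‖s p‖ ≤ b) {Q : Set (E d)} (hQV : Q ⊆ V) (hcap : Cap (k ∩ Q))
    {p₀ : E d} (hp : 0 < χ p₀) (hball : ∀ y, ‖y‖ ≤ ε → p₀ + χ p₀ • y ∈ Q) :
    extDeriv (JJ ρ χ ((V \ k).indicator s)) p₀ = 0 := by
  set Φ : E d → Al d 2 := (V \ k).indicator s with hΦ
  have hf : StronglyMeasurable Φ := ind_sm hVk hs
  have hb : ∀ q, ‖Φ q‖ ≤ b := ind_bd hb0 hsB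
  have hρc := moll_cs hρ
  apply ContinuousAlternatingMap.ext
  intro u
  change extDeriv (JJ ρ χ Φ) p₀ u = 0
  choose Ci hCi0 hCi using fun i : Fin 3 =>
    JJ_fd hK hχ hp hρ.smooth hρc (i.removeNth u 0) (i.removeNth u 1)
  obtain ⟨C1, hC1⟩ := (hK d ρ χ hρ.smooth hρc hχ p₀ hp).2
  set l : ℝ := 1 + ‖fderiv ℝ χ p₀‖ * ε with hl
  have hl0 : 0 ≤ l := by positivity
  have key : ∀ δ' : ℝ, 0 < δ' → |extDeriv (JJ ρ χ Φ) p₀ u| ≤
      ((3 * b * l ^ 3) * |C1| * (∏ i, ‖u i‖) + ∑ i, Ci i * b * ‖u i‖) * δ' := by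
    intro δ' hδ'
    obtain ⟨η, hη, hη0, hη1, hηk, -, hηc, hηv, hηi⟩ :=
      hcap univ isOpen_univ (subset_univ _) δ' hδ'
    set s1 : E d → Al d 2 := fun q => (1 - η q) • Φ q with hs1
    set s2 : E d → Al d 2 := fun q => η q • Φ q with hs2
    have hf1 : StronglyMeasurable s1 :=
      (continuous_const.sub hη.continuous).stronglyMeasurable.smul hf
    have hf2 : StronglyMeasurable s2 := hη.continuous.stronglyMeasurable.smul hf
    have hb1 : ∀ q, ‖s1 q‖ ≤ b := by
      intro q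
      rw [hs1, norm_smul, Real.norm_of_nonneg (by linarith [hη1 q])]
      have h1 : (1 - η q) * ‖Φ q‖ ≤ 1 * b :=
        mul_le_mul (by linarith [hη0 q]) (hb q) (norm_nonneg _) zero_le_one
      rwa [one_mul] at h1
    have hb2' : ∀ q, ‖s2 q‖ ≤ η q * b := by
      intro q
      rw [hs2, norm_smul, Real.norm_of_nonneg (hη0 q)]
      exact mul_le_mul_of_nonneg_left (hb q) (hη0 q)
    have hb2 : ∀ q, ‖s2 q‖ ≤ b := fun q => (hb2' q).trans
      (mul_le_of_le_one_left hb0 (hη1 q))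
    have hsum : JJ ρ χ Φ = JJ ρ χ s1 + JJ ρ χ s2 := by
      funext p
      rw [Pi.add_apply, ← JJ_add hρ.smooth.continuous hρc hf1 hb1 hf2 hb2]
      congr 1
      funext q
      simp only [hs1, hs2]
      rw [← add_smul, sub_add_cancel, one_smul]
    have hd1 : DifferentiableAt ℝ (JJ ρ χ s1) p₀ :=
      (JJ_smooth hK hχ hp hρ.smooth hρc hf1 hb1).differentiableAt (by simp)
    have hd2 : DifferentiableAt ℝ (JJ ρ χ s2) p₀ :=
      (JJ_smooth hK hχ hp hρ.smooth hρc hf2 hb2).differentiableAt (by simp)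
    rw [hsum, extDeriv_add hd1 hd2]
    -- the small part
    have hηint : Integrable (fun q => η q * b) :=
      (hη.continuous.integrable_of_hasCompactSupport hηc).mul_const b
    have hi2 : Integrable s2 :=
      hηint.mono' hf2.aestronglyMeasurable (Eventually.of_forall hb2')
    have hm2 : ∫ x, ‖s2 x‖ ≤ b * δ' := by
      have h1 : ∫ x, ‖s2 x‖ = ∫ x in Function.support η, ‖s2 x‖ := by
        refine (setIntegral_eq_integral_of_forall_compl_eq_zero fun t ht => ?_).symm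
        rw [Function.notMem_support] at ht
        simp only [hs2]
        rw [ht, zero_smul, norm_zero]
      have h2 : ‖∫ x in Function.support η, ‖s2 x‖‖ ≤
          b * (volume : Measure (E d)).real (Function.support η) :=
        norm_setIntegral_le_of_norm_le_const (hηv.trans ENNReal.ofReal_lt_top) fun t _ => by
          rw [norm_norm]
          exact hb2 t
      have h3 : (volume : Measure (E d)).real (Function.support η) ≤ δ' := by
        unfold Measure.real
        exact ENNReal.toReal_le_of_le_ofReal hδ'.le hηv.le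
      rw [h1]
      exact (le_abs_self _).trans (h2.trans (mul_le_mul_of_nonneg_left h3 hb0))
    have part2 : |extDeriv (JJ ρ χ s2) p₀ u| ≤ (∑ i, Ci i * b * ‖u i‖) * δ' := by
      rw [extDeriv_apply hd2, Finset.sum_mul]
      refine (Finset.abs_sum_le_sum_abs _ _).trans (Finset.sum_le_sum fun i _ => ?_)
      have h1 : |(-1 : ℤ) ^ i.val • fderiv ℝ (fun x => JJ ρ χ s2 x (i.removeNth u)) p₀ (u i)| =
          |fderiv ℝ (fun x => JJ ρ χ s2 x (i.removeNth u)) p₀ (u i)| := by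
        rcases neg_one_pow_eq_or ℤ i.val with h | h <;> rw [h] <;> simp
      have h2 : |fderiv ℝ (fun x => JJ ρ χ s2 x (i.removeNth u)) p₀ (u i)| ≤
          Ci i * b * ‖u i‖ * δ' := by
        have h3 := (fderiv ℝ (fun x => JJ ρ χ s2 x (i.removeNth u)) p₀).le_opNorm (u i)
        have h4 := hCi i s2 b hf2 hb2 hi2
        rw [← pair_eta (i.removeNth u)] at h4
        rw [Real.norm_eq_abs] at h3
        refine h3.trans ?_
        calc _ ≤ Ci i * (b * δ') * ‖u i‖ :=
              mul_le_mul_of_nonneg_right (h4.trans (mul_le_mul_of_nonneg_left hm2 (hCi0 i)))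
                (norm_nonneg _)
          _ = _ := by ring
      refine le_trans (le_of_eq ?_) h2
      convert h1 using 2
    -- the smooth part
    set O : Set (E d) := (V \ k) ∪ interior {x | η x = 1} with hO
    have hOo : IsOpen O := hVk.union isOpen_interior
    have hev1 : ∀ q ∈ interior {x | η x = 1}, s1 =ᶠ[𝓝 q] fun _ => 0 := by
      intro q hq
      filter_upwards [isOpen_interior.mem_nhds hq] with x hx
      have hx1 : x ∈ {x | η x = 1} := interior_subset hx
      rw [mem_ofPred_eq] at hx1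
      simp only [hs1]
      rw [hx1, sub_self, zero_smul]
    have hev2 : ∀ q ∈ V \ k, s1 =ᶠ[𝓝 q] fun x => (1 - η x) • s x := by
      intro q hq
      filter_upwards [ind_ev (s := s) hVk hq] with x hx
      simp only [hs1, hΦ]
      rw [hx]
    have hη' : ContDiff ℝ ∞ (fun x => 1 - η x) := contDiff_const.sub hη
    have hsm1 : ContDiffOn ℝ ∞ s1 O := by
      intro q hq
      refine ContDiffAt.contDiffWithinAt ?_
      rcases hq with hq | hq
      · exact (hη'.contDiffAt.smul (hs.contDiffAt (hVk.mem_nhds hq))).congr_of_eventuallyEq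
          (hev2 q hq)
      · exact contDiffAt_const.congr_of_eventuallyEq (hev1 q hq)
    have hkint : ∀ q ∈ k ∩ Q, q ∈ interior {x | η x = 1} := by
      intro q hq
      rw [mem_interior_iff_mem_nhds]
      exact (eventually_nhdsSet_iff_forall.1 hηk) q hq
    have hQO : ∀ y, ‖y‖ ≤ ε → p₀ + χ p₀ • y ∈ O := by
      intro y hy
      have h1 := hball y hy
      by_cases hk' : p₀ + χ p₀ • y ∈ k
      · exact Or.inr (hkint _ ⟨hk', h1⟩)
      · exact Or.inl ⟨hQV h1, hk'⟩
    obtain ⟨-, h2⟩ := JJ_sm hSM hρ hχ hOo hsm1 hQO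
    have hdη : Continuous (fun x => ‖fderiv ℝ η x‖) := (hη.continuous_fderiv (by simp)).norm
    obtain ⟨M, hM⟩ : ∃ M, ∀ x, ‖fderiv ℝ η x‖ ≤ M :=
      (hη.continuous_fderiv (by simp)).bounded_above_of_compact_support (hηc.fderiv ℝ)
    have hMb : ∀ x, |‖fderiv ℝ η x‖| ≤ M := fun x => by rw [abs_norm]; exact hM x
    have hgi : Integrable (fun y => ρ y * ‖fderiv ℝ η (p₀ + χ p₀ • y)‖) :=
      II_int (χ := χ) hρ.smooth.continuous hρc hdη.stronglyMeasurable hMb p₀
    have h3 := h2 (fun y => (3 * b * l ^ 3) * (ρ y * ‖fderiv ℝ η (p₀ + χ p₀ • y)‖))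
      (hgi.const_mul _) (fun y => mul_nonneg (by positivity)
        (mul_nonneg (hρ.nonneg y) (norm_nonneg _))) (fun y hy => by
        set q : E d := p₀ + χ p₀ • y with hq
        have hqQ : q ∈ Q := hball y hy
        have h4 : ‖extDeriv s1 q‖ ≤ 3 * (‖fderiv ℝ η q‖ * b) := by
          by_cases hqk : q ∈ k
          · rw [ext_zero (hev1 q (hkint q ⟨hqk, hqQ⟩)), norm_zero]
            positivity
          · have hqVk : q ∈ V \ k := ⟨hQV hqQ, hqk⟩
            rw [(hev2 q hqVk).extDeriv_eq, ext_smul ((hη'.differentiable (by simp)) q)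
              ((hs.contDiffAt (hVk.mem_nhds hqVk)).differentiableAt (by simp)), hcl q hqVk,
              smul_zero, zero_add]
            refine (wedge3_norm _ _).trans ?_
            have h5 : fderiv ℝ (fun x => 1 - η x) q = -fderiv ℝ η q := fderiv_const_sub _
            rw [h5, norm_neg]
            have h6 := mul_le_mul_of_nonneg_left (hsB q hqVk) (norm_nonneg (fderiv ℝ η q))
            linarith
        have h5 : ‖LL (fderiv ℝ χ p₀) y‖ ≤ l := by
          refine (LL_norm _ _).trans ?_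
          rw [hl]
          have := mul_le_mul_of_nonneg_left hy (norm_nonneg (fderiv ℝ χ p₀))
          linarith
        have h6 : ‖(extDeriv s1 q).compContinuousLinearMap (LL (fderiv ℝ χ p₀) y)‖ ≤
            3 * (‖fderiv ℝ η q‖ * b) * l ^ 3 :=
          (comp3_norm _ _).trans (mul_le_mul h4 (pow_le_pow_left₀ (norm_nonneg _) h5 3)
            (by positivity) (by positivity))
        calc _ ≤ ρ y * (3 * (‖fderiv ℝ η q‖ * b) * l ^ 3) :=
              mul_le_mul_of_nonneg_left h6 (hρ.nonneg y)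
          _ = _ := by ring)
    have part1 : |extDeriv (JJ ρ χ s1) p₀ u| ≤
        (3 * b * l ^ 3) * |C1| * (∏ i, ‖u i‖) * δ' := by
      have h4 := (extDeriv (JJ ρ χ s1) p₀).le_opNorm u
      rw [Real.norm_eq_abs] at h4
      rw [integral_const_mul] at h3
      have hηint' : Integrable (fun x => ‖fderiv ℝ η x‖) :=
        hdη.integrable_of_hasCompactSupport (hηc.fderiv ℝ).norm
      have h5 := (hC1 (fun x => ‖fderiv ℝ η x‖) hdη.aestronglyMeasurable ⟨M, hMb⟩ hηint').1
      simp only [abs_norm] at h5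
      have h6 : ∫ y, ρ y * ‖fderiv ℝ η (p₀ + χ p₀ • y)‖ ≤ |C1| * δ' := by
        refine (le_abs_self _).trans (h5.trans ?_)
        have h7 : 0 ≤ ∫ x, ‖fderiv ℝ η x‖ := integral_nonneg fun x => norm_nonneg _
        calc C1 * ∫ x, ‖fderiv ℝ η x‖ ≤ |C1| * ∫ x, ‖fderiv ℝ η x‖ :=
              mul_le_mul_of_nonneg_right (le_abs_self _) h7
          _ ≤ |C1| * δ' := mul_le_mul_of_nonneg_left hηi.le (abs_nonneg _)
      have h7 : 0 ≤ ∏ i, ‖u i‖ := Finset.prod_nonneg fun i _ => norm_nonneg _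
      calc |extDeriv (JJ ρ χ s1) p₀ u| ≤ ‖extDeriv (JJ ρ χ s1) p₀‖ * ∏ i, ‖u i‖ := h4
        _ ≤ (3 * b * l ^ 3 * (|C1| * δ')) * ∏ i, ‖u i‖ :=
            mul_le_mul_of_nonneg_right (h3.trans
              (mul_le_mul_of_nonneg_left h6 (by positivity))) h7
        _ = _ := by ring
    calc |(extDeriv (JJ ρ χ s1) p₀ + extDeriv (JJ ρ χ s2) p₀) u|
        = |extDeriv (JJ ρ χ s1) p₀ u + extDeriv (JJ ρ χ s2) p₀ u| := rfl
      _ ≤ _ := (abs_add_le _ _).trans (add_le_add part1 part2)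
      _ = _ := by ring
  set Ct : ℝ := (3 * b * l ^ 3) * |C1| * (∏ i, ‖u i‖) + ∑ i, Ci i * b * ‖u i‖ with hCt
  by_contra hne
  have hpos : 0 < |extDeriv (JJ ρ χ Φ) p₀ u| := abs_pos.2 hne
  have hCt0 : 0 ≤ Ct := by
    have h1 := key 1 one_pos
    linarith [abs_nonneg (extDeriv (JJ ρ χ Φ) p₀ u)]
  have h1 := key (|extDeriv (JJ ρ χ Φ) p₀ u| / (2 * (Ct + 1))) (by positivity)
  have h2 : Ct * (|extDeriv (JJ ρ χ Φ) p₀ u| / (2 * (Ct + 1))) ≤
      |extDeriv (JJ ρ χ Φ) p₀ u| / 2 := by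
    rw [mul_div_assoc', div_le_div_iff₀ (by positivity) two_pos]
    nlinarith
  linarith

end ind

end Pool.Agent.Y515.SY
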